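import Pool.Agent.H49.CL.Targets

/-!
# Chains of equivalence relations: endomorphisms preserve the chain, assembly
-/

set_option autoImplicit false
set_option linter.unusedVariables false

namespace Pool.Agent.H49.CL

open Pool.Agent.H68.BP Pool.Agent.H58.SF Pool.Agent.H53.NR
open Pool.Agent.H57.AR (tp ty Ty)
open Pool.Agent.H57.EQ (Cx)
open Pool.Agent.H57.LH (RmV)
open Pool.Agent.H44.KR (HB Tyi TpOn)
open Pool.Agent.H44.FB (CptC EmbC)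
open Pool.Agent.H72.CH
open Function

/-- LINKS: endomorphisms preserve the equivalences. -/
theorem lnk (hNCA : T_NCA) (hNCU : T_NCU) (hREX : T_REX) (hCMN : T_CMN) (hMUL : T_MUL)
    (hCMX : T_CMX) (hCRS : T_CRS) (hINI : T_INI) (hCNR : T_CNR) (hRLR : T_RLR) (hGEN : T_GEN)
    (hKAP : T_KAP) (hPRP : T_PRP) (hLYR : T_LYR) (hLAY : T_LAY) (hINH : T_INH) (hISC : T_ISC)
    (hUEX : T_UEX) {V N : Type} {ρ σ δ : Sig} {𝔹 : Str ρ V} {m : ℕ} {lv : V → V → ℕ}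
    {𝔸 : Str σ V} {𝔻 : Str δ N} {st : N → Fin m} {β : (Fin m → N) → V} (hV : HV 𝔹 m lv)
    (hN : Nm 𝔹 m lv 𝔻 st β) (hA : Tyi 𝔸 𝔹) (hL : NcL 𝔸 m lv) (hR : RamX 𝔸 𝔹 lv)
    (hcpt : CptC 𝔹) (hemb : EmbC 𝔹) (haml : AmlC 𝔹 lv) (hlve : LveC m lv)
    (hpth : ∃ L, PthC 𝔹 lv L) (hrlc : ∃ M, RlcN 𝔹 m lv M) (hnex : NexC 𝔹 m lv st β)
    (hrmv : RmV 𝔻) (hembD : EmbC 𝔻) (hzz : ZzC 𝔻 st) : UEC 𝔸 lv := by
  obtain ⟨R, hRE⟩ := hREX V ρ σ 𝔹 m lv 𝔸 hV hA hcpt hR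
  obtain ⟨M, hM⟩ := hrlc
  have hmul : MulC 𝔹 lv := hMUL V ρ 𝔹 m lv hV haml
  have hlay : LayC 𝔹 lv M := hLAY V ρ 𝔹 m lv hV hemb M hM
  have hND : Nonempty N := hN.hb.ne
  have hcnr : CnrC 𝔻 st := hCNR N δ 𝔻 m st hND hrmv hembD hzz
  have hrlr : RlrC 𝔹 m lv := hRLR V N ρ δ 𝔹 m lv 𝔻 st β hV hN hemb hembD hnex hcnr
  have hgen : GenC 𝔹 m lv := hGEN V ρ 𝔹 m lv hV haml hmul hlve hrlr
  refine hUEX V ρ σ 𝔹 m lv 𝔸 R hV hlve hpth hRE ?_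
  intro i hi him
  have hcmn : CmnC 𝔸 𝔹 lv i R := hCMN V ρ σ 𝔹 m lv 𝔸 i R hV hA hRE
  have hcmx : ∀ j, j ≤ i → CmxC 𝔸 𝔹 lv i R j := fun j hj =>
    hCMX hNCA hNCU V ρ σ 𝔹 m lv 𝔸 i j R hV hA hmul hRE hi him.le hj
  have hcrs : ∀ j, j ≤ i → CrsC 𝔸 𝔹 lv i R j := fun j hj =>
    hCRS hNCA V ρ σ 𝔹 m lv 𝔸 i j R hV hA haml hRE hcmn him.le hj
  have hsi : SC 𝔸 𝔹 lv i R i := hISC V ρ σ 𝔹 m lv 𝔸 i i R
    (hINI hNCA V ρ σ 𝔹 m lv 𝔸 i R hV hA haml hRE (hcmx i le_rfl) hi him.le) (hcrs i le_rfl)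
  have hsc : ∀ d ≤ i, SC 𝔸 𝔹 lv i R (i - d) := by
    intro d
    induction d with
    | zero => intro _; exact hsi
    | succ d ih =>
      intro hd
      have h1 : i - (d + 1) + 1 = i - d := by omega
      have h2 : i - (d + 1) < i := by omega
      have h3 := ih (by omega)
      rw [← h1] at h3
      have hprp := hPRP V ρ σ 𝔹 m lv 𝔸 i (i - (d + 1)) R hV hA hcpt haml hlve
        (hcrs _ h2.le) h3 h2 him
      have hlyr := hLYR V ρ σ 𝔹 m lv 𝔸 i (i - (d + 1)) R hV haml hprp (by omega) (M + 2)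
      have hkap := hKAP hNCA V ρ σ 𝔹 m lv 𝔸 i (i - (d + 1)) R hV hA hL hgen hRE hcmn
        (hcmx _ h2.le) h2 him
      exact hISC V ρ σ 𝔹 m lv 𝔸 i _ R
        (hINH V ρ σ 𝔹 m lv 𝔸 i _ M R hV hlay hlyr hkap (by omega)) (hcrs _ h2.le)
  intro g hg
  obtain ⟨v⟩ := hV.ne
  have h4 := hsc i le_rfl
  rw [Nat.sub_self] at h4
  exact h4 {v} g hg fun x hx => absurd (hx v (Finset.mem_singleton_self v)) (Nat.not_lt_zero _)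

end Pool.Agent.H49.CL
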