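import Pool.Agent.H49.CL.Targets
import Pool.Agent.H57.CN.Basics

/-!
INH: from outside a class with the number `h` to its inside.
-/

set_option autoImplicit false
set_option linter.unusedVariables false

namespace Pool.Agent.H49.CL

open Pool.Agent.H68.BP Pool.Agent.H58.SF Pool.Agent.H53.NR
open Pool.Agent.H57.AR (tp ty Ty)
open Pool.Agent.H57.EQ (Cx)
open Pool.Agent.H57.LH (tp_iff)
open Pool.Agent.H44.KR (HB Tyi TpOn)
open Pool.Agent.H57.CN (lv_tp tp_comp)
open Pool.Agent.H72.CH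
open Function

theorem pf_INH : T_INH := by
  intro V ρ σ 𝔹 m lv 𝔸 i h M R hV hlay hlyr hkap hm p₀ Q g hg hex p hp q hq hR
  classical
  have pl := hV.lev.pl
  have hp' : h ≤ lv p p₀ := hp
  have hq' : h ≤ lv q p₀ := hq
  have hpq : h ≤ lv p q :=
    le_trans (le_min hp' (by rw [pl.sym]; exact hq')) (pl.ult p p₀ q)
  obtain ⟨X, hX, ht, f, L, xp, xq, hl⟩ := hlyr p q (Q.filter fun v => lv v p < h) hpq
    (fun v hv => (Finset.mem_filter.1 hv).2)
  haveI := hX
  obtain ⟨hxp0, hfxp, hxpL⟩ := hl.hp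
  obtain ⟨hxq0, hfxq, hxqL⟩ := hl.hq
  -- the last layer
  let Λ : Set X := {x | x ∈ L ∧ ht x = M + 2}
  let e : Λ ≃ Fin (Nat.card Λ) := Finite.equivFin Λ
  let z : Fin (Nat.card Λ) → V := fun a => f (e.symm a)
  have hzz : ∀ a b, h ≤ lv (z a) (z b) := fun a b =>
    le_trans (le_min (hl.lp _ (e.symm a).2.1) (by rw [pl.sym]; exact hl.lp _ (e.symm b).2.1))
      (pl.ult _ p _)
  obtain ⟨z', hz', hz1, hz2, hz3⟩ := hkap p₀ Q g hg hex _ z {p, q} hzz
  have hz2p : ∀ a, lv (z' a) p ≤ h := fun a => hz2 a p (by simp)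
  have hz2q : ∀ a, lv (z' a) q ≤ h := fun a => hz2 a q (by simp)
  have hz1p : ∀ a, h ≤ lv (z' a) p := fun a =>
    le_trans (le_min (hz1 a) (by rw [pl.sym]; exact hp')) (pl.ult _ p₀ _)
  have hz1q : ∀ a, h ≤ lv (z' a) q := fun a =>
    le_trans (le_min (hz1 a) (by rw [pl.sym]; exact hq')) (pl.ult _ p₀ _)
  let f₀ : X → V := fun x => if hx : x ∈ Λ then z' (e ⟨x, hx⟩) else f x
  have hf₀Λ : ∀ x (hx : x ∈ Λ), f₀ x = z' (e ⟨x, hx⟩) := fun x hx => dif_pos hx
  have hf₀n : ∀ x, x ∉ Λ → f₀ x = f x := fun x hx => dif_neg hx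
  have hfz : ∀ x (hx : x ∈ Λ), f x = z (e ⟨x, hx⟩) := fun x hx => by
    show f x = f (e.symm (e ⟨x, hx⟩))
    rw [e.symm_apply_apply]
  have h0Λ : ∀ x, ht x = 0 → x ∉ Λ := fun x hx hx' => by
    have := hx'.2
    omega
  have htz := tp_iff.1 hz'
  have hT0 : TpOn 𝔹 {x | ht x = 0} f f₀ := by
    refine ⟨fun a ha b hb => ?_, fun l w hw => ?_⟩
    · rw [hf₀n a (h0Λ a ha), hf₀n b (h0Λ b hb)]
    · have : (fun i => f₀ (w i)) = fun i => f (w i) := funext fun i => hf₀n _ (h0Λ _ (hw i))
      rw [this]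
  have hTΛ : TpOn 𝔹 Λ f f₀ := by
    refine ⟨fun a ha b hb => ?_, fun l w hw => ?_⟩
    · rw [hf₀Λ a ha, hf₀Λ b hb, hfz a ha, hfz b hb]
      exact (htz.1 _ _).symm
    · have h1 : (fun i => f₀ (w i)) = fun i => z' (e ⟨w i, hw i⟩) := funext fun i => hf₀Λ _ (hw i)
      have h2 : (fun i => f (w i)) = fun i => z (e ⟨w i, hw i⟩) := funext fun i => hfz _ (hw i)
      rw [h1, h2]
      exact (htz.2 l (fun i => e ⟨w i, hw i⟩)).symm
  -- levels to the class of p
  have hcls : ∀ v x y : V, lv v p < h → h ≤ lv x p → h ≤ lv y p → lv v x = lv v y := by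
    intro v x y hv hx hy
    have h1 : ∀ x, h ≤ lv x p → lv v x = lv v p := by
      intro x hx
      apply le_antisymm
      · by_contra hc
        have h2 := pl.ult v x p
        have h3 : min (lv v x) (lv x p) ≤ lv v p := h2
        rcases le_total (lv v x) (lv x p) with h4 | h4
        · rw [min_eq_left h4] at h3; omega
        · rw [min_eq_right h4] at h3; omega
      · have h2 := pl.ult v p x
        have h3 : lv v p ≤ lv p x := by rw [pl.sym p x]; omega
        rwa [min_eq_left h3] at h2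
    rw [h1 x hx, h1 y hy]
  have hcr : ∀ x y, ht x = 0 → y ∈ Λ → lv (f₀ x) (f₀ y) = lv (f x) (f y) := by
    intro x y hx hy
    rw [hf₀n x (h0Λ x hx), hf₀Λ y hy]
    have hyL := hy.1
    have hyt : ht y = M + 2 := hy.2
    have hyp : h ≤ lv (f y) p := hl.lp y hyL
    rcases hl.h0 x hx with h1 | h1 | h1
    · rw [h1]
      have h2 := hl.live y hyL xp (by omega)
      rw [hfxp] at h2
      rw [pl.sym p, pl.sym p]
      exact le_antisymm ((hz2p _).trans hyp) (h2.trans (hz1p _))
    · rw [h1]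
      have h2 := hl.live y hyL xq (by omega)
      rw [hfxq] at h2
      have h3 : h ≤ lv (f y) q := le_trans (le_min hyp hpq) (pl.ult _ p _)
      rw [pl.sym q, pl.sym q]
      exact le_antisymm ((hz2q _).trans h3) (h2.trans (hz1q _))
    · exact hcls _ _ _ (Finset.mem_filter.1 h1).2 (hz1p _) hyp
  obtain ⟨t, htL, htN⟩ := hl.top
  have hfar : ∀ x y j, ht x + 2 ≤ ht y → 1 ≤ j → j ≤ lv (f x) (f y) →
      (∃ r, ht r = 0 ∧ j ≤ lv (f x) (f r)) ∧ ∃ l ∈ Λ, j ≤ lv (f y) (f l) := by
    intro x y j hxy hj hj'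
    obtain ⟨h1, h2, h3⟩ := hl.far x y j hxy hj hj'
    refine ⟨⟨xp, hxp0, by rw [hfxp]; exact h2⟩, t, ⟨htL, htN⟩, ?_⟩
    have h4 := hl.lp t htL
    exact le_trans (le_min h3 (by rw [pl.sym]; exact h1.trans h4)) (pl.ult _ p _)
  obtain ⟨f', hf1, hf2, hf3⟩ := hlay X ht (M + 2) f f₀ Λ le_rfl hl.hN (fun x hx => hx.2) hT0 hTΛ
    hcr hfar
  have hf'0 : ∀ x, ht x = 0 → f' x = f x := fun x hx => by
    rw [hf2 x (Or.inl hx), hf₀n x (h0Λ x hx)]
  have key : ∀ d ≤ M + 2, ExU 𝔹 lv i R g {y | ∃ x ∈ L, y = f' x ∧ ht x = M + 2 - d} := by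
    intro d
    induction d with
    | zero =>
      intro _ x hx y hy hxy
      obtain ⟨a, haL, rfl, hat⟩ := hx
      obtain ⟨b, hbL, rfl, hbt⟩ := hy
      have ha : a ∈ Λ := ⟨haL, hat⟩
      have hb : b ∈ Λ := ⟨hbL, hbt⟩
      rw [hf1 a b, hf2 a (Or.inr ha), hf2 b (Or.inr hb), hf₀Λ a ha, hf₀Λ b hb, hfz a ha, hfz b hb]
      exact hz3 _ _
    | succ d ih =>
      intro hd
      have h1 := ih (by omega)
      have h2 : M + 2 - (d + 1) + 1 = M + 2 - d := by omega
      refine hl.prp (M + 2 - (d + 1)) (by omega) g f' hg (hf3 _) ?_ ?_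
      · intro x hx y hy hxy
        refine hex x ?_ y ?_ hxy
        · obtain ⟨a, rfl, hat, ha⟩ := hx
          have h3 : lv (f' a) p < h := by
            have h4 := hf1 a xp
            rw [hf'0 xp hxp0, hfxp] at h4
            rw [h4]; exact ha
          refine ⟨?_, fun v hv => ?_⟩
          · show lv (f' a) p₀ < h
            by_contra hc
            have h5 := pl.ult (f' a) p₀ p
            have h6 : h ≤ min (lv (f' a) p₀) (lv p₀ p) :=
              le_min (by omega) (by rw [pl.sym]; exact hp')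
            omega
          · by_cases hvp : lv v p < h
            · obtain ⟨xv, hxv0, hxv⟩ := hl.hQ v (Finset.mem_filter.2 ⟨hv, hvp⟩)
              have h4 := hf1 a xv
              rw [hf'0 xv hxv0, hxv] at h4
              rw [h4]
              exact hl.off a (by omega) v (Finset.mem_filter.2 ⟨hv, hvp⟩)
            · by_contra hc
              have h5 := pl.ult (f' a) v p
              have h6 : h ≤ min (lv (f' a) v) (lv v p) := le_min (by omega) (by omega)
              omega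
        · obtain ⟨a, rfl, hat, ha⟩ := hy
          have h3 : lv (f' a) p < h := by
            have h4 := hf1 a xp
            rw [hf'0 xp hxp0, hfxp] at h4
            rw [h4]; exact ha
          refine ⟨?_, fun v hv => ?_⟩
          · show lv (f' a) p₀ < h
            by_contra hc
            have h5 := pl.ult (f' a) p₀ p
            have h6 : h ≤ min (lv (f' a) p₀) (lv p₀ p) :=
              le_min (by omega) (by rw [pl.sym]; exact hp')
            omega
          · by_cases hvp : lv v p < h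
            · obtain ⟨xv, hxv0, hxv⟩ := hl.hQ v (Finset.mem_filter.2 ⟨hv, hvp⟩)
              have h4 := hf1 a xv
              rw [hf'0 xv hxv0, hxv] at h4
              rw [h4]
              exact hl.off a (by omega) v (Finset.mem_filter.2 ⟨hv, hvp⟩)
            · by_contra hc
              have h5 := pl.ult (f' a) v p
              have h6 : h ≤ min (lv (f' a) v) (lv v p) := le_min (by omega) (by omega)
              omega
      · rw [h2]
        exact h1
  have hfin := key (M + 2) le_rfl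
  rw [Nat.sub_self] at hfin
  exact hfin p ⟨xp, hxpL, by rw [hf'0 xp hxp0, hfxp], hxp0⟩ q
    ⟨xq, hxqL, by rw [hf'0 xq hxq0, hfxq], hxq0⟩ hR

end Pool.Agent.H49.CL
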