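import Pool.Agent.H49.CL.Targets
import Pool.Agent.H57.CN.Basics

/-!
MUL: disjoint copies over a base.
-/

set_option autoImplicit false
set_option linter.unusedVariables false

namespace Pool.Agent.H49.CL

open Pool.Agent.H68.BP Pool.Agent.H58.SF Pool.Agent.H53.NR
open Pool.Agent.H57.AR (tp ty Ty)
open Pool.Agent.H57.CN (lv_tp tp_comp)
open Pool.Agent.H72.CH
open Function

theorem pf_MUL : T_MUL := by
  intro V ρ 𝔹 m lv hV haml W _ A y n
  classical
  haveI := Fintype.ofFinite W
  have pl := hV.lev.pl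
  induction n with
  | zero => exact ⟨fun a => a.elim0, fun a => a.elim0, fun a => a.elim0, fun a => a.elim0⟩
  | succ n ih =>
    obtain ⟨Y, h1, h2, h3⟩ := ih
    let F : Finset V := (Finset.univ : Finset (Fin n × W)).image fun q => Y q.1 q.2
    obtain ⟨y', hy1, hy2, hy3⟩ := haml W A y y F ⟨fun a _ b _ => Iff.rfl, fun l z _ => Iff.rfl⟩
    have key : ∀ (b : Fin n) (w w' : W) (j : ℕ), 1 ≤ j → j ≤ lv (y' w) (Y b w') →
        ∃ c ∈ A, j ≤ lv (y w) (y c) ∧ j ≤ lv (y c) (y w') := by
      intro b w w' j hj hjj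
      obtain ⟨c, hc, h4, h5⟩ := hy3 w (Y b w')
        (Finset.mem_image.2 ⟨(b, w'), Finset.mem_univ _, rfl⟩) j hj hjj
      refine ⟨c, hc, h4, ?_⟩
      rw [← h2 b c hc, lv_tp hV (h1 b) c w'] at h5
      exact h5
    refine ⟨fun a => if h : (a : ℕ) < n then Y ⟨a, h⟩ else y', ?_, ?_, ?_⟩
    · intro a
      by_cases ha : (a : ℕ) < n
      · simp only [ha, dif_pos]
        exact h1 _
      · simp only [ha, dif_neg, not_false_iff]
        exact hy1
    · intro a c hc
      by_cases ha : (a : ℕ) < n
      · simp only [ha, dif_pos]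
        exact h2 _ c hc
      · simp only [ha, dif_neg, not_false_iff]
        exact hy2 c hc
    · intro a b hab w w' j hj hjj
      by_cases ha : (a : ℕ) < n
      · by_cases hb : (b : ℕ) < n
        · simp only [ha, hb, dif_pos] at hjj
          refine h3 ⟨a, ha⟩ ⟨b, hb⟩ (fun h => hab ?_) w w' j hj hjj
          exact Fin.ext (Fin.mk.inj_iff.1 h)
        · simp only [ha, hb, dif_pos, dif_neg, not_false_iff] at hjj
          rw [pl.sym] at hjj
          obtain ⟨c, hc, h4, h5⟩ := key _ _ _ j hj hjj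
          exact ⟨c, hc, by rw [pl.sym]; exact h5, by rw [pl.sym]; exact h4⟩
      · by_cases hb : (b : ℕ) < n
        · simp only [ha, hb, dif_pos, dif_neg, not_false_iff] at hjj
          exact key _ _ _ j hj hjj
        · exact absurd (Fin.ext (by have := a.2; have := b.2; omega)) hab

end Pool.Agent.H49.CL
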