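import Pool.Agent.H67.CL.CMN
import Pool.Agent.H44.CL.CMX
import Pool.Agent.H20.CL.CNR
import Pool.Agent.H37.CL.CRS
import Pool.Agent.H13.CLG.GEN
import Pool.Agent.H37.CL.INI
import Pool.Agent.H46.CL.LAY
import Pool.Agent.H74.CL.LYR
import Pool.Agent.H68.CHL.NCA
import Pool.Agent.H55.CL.PRP
import Pool.Agent.H97.CL.UEX
import Pool.Agent.H34.CL.ISC
import Pool.Agent.H79.CL.KAP
import Pool.Agent.H17.CLR.REX
import Pool.Agent.H95.CL.NCU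
import Pool.Agent.H49.CL.MUL
import Pool.Agent.H55.CL.RLR
import Pool.Agent.H49.CL.INH
import Pool.Agent.H49.CL.Asm

/-!
# Chains of equivalence relations: endomorphisms preserve the chain, without hypotheses
-/

set_option autoImplicit false
set_option linter.unusedVariables false

namespace Pool.Agent.H49.CL

open Pool.Agent.H68.BP Pool.Agent.H58.SF Pool.Agent.H53.NR
open Pool.Agent.H57.LH (RmV)
open Pool.Agent.H44.KR (HB Tyi TpOn)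
open Pool.Agent.H44.FB (CptC EmbC)
open Pool.Agent.H72.CH

/-- LINKS: endomorphisms preserve the equivalences. -/
theorem links {V N : Type} {ρ σ δ : Sig} {𝔹 : Str ρ V} {m : ℕ} {lv : V → V → ℕ}
    {𝔸 : Str σ V} {𝔻 : Str δ N} {st : N → Fin m} {β : (Fin m → N) → V} (hV : HV 𝔹 m lv)
    (hN : Nm 𝔹 m lv 𝔻 st β) (hA : Tyi 𝔸 𝔹) (hL : NcL 𝔸 m lv) (hR : RamX 𝔸 𝔹 lv)
    (hcpt : CptC 𝔹) (hemb : EmbC 𝔹) (haml : AmlC 𝔹 lv) (hlve : LveC m lv)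
    (hpth : ∃ L, PthC 𝔹 lv L) (hrlc : ∃ M, RlcN 𝔹 m lv M) (hnex : NexC 𝔹 m lv st β)
    (hrmv : RmV 𝔻) (hembD : EmbC 𝔻) (hzz : ZzC 𝔻 st) : UEC 𝔸 lv :=
  lnk Pool.Agent.H68.CHL.pf_NCA Pool.Agent.H95.CL.pf_NCU Pool.Agent.H17.CLR.pf_REX Pool.Agent.H67.CL.pf_CMN
    pf_MUL Pool.Agent.H44.CL.pf_CMX Pool.Agent.H37.CL.pf_CRS Pool.Agent.H37.CL.pf_INI
    Pool.Agent.H20.CL.pf_CNR Pool.Agent.H55.CL.RL.pf_RLR Pool.Agent.H13.CLG.pf_GEN Pool.Agent.H79.CL.pf_KAP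
    Pool.Agent.H55.CL.pf_PRP Pool.Agent.H74.CL.pf_LYR Pool.Agent.H46.CL.pf_LAY pf_INH
    Pool.Agent.H34.CL.pf_ISC Pool.Agent.H97.CL.pf_UEX hV hN hA hL hR hcpt hemb haml hlve hpth
    hrlc hnex hrmv hembD hzz

end Pool.Agent.H49.CL
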