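import Pool.Agent.H72.CH.Targets

/-!
# Chains of equivalence relations: endomorphisms preserve the chain, definitions

`R` is a set of types of pairs. A map is exact on a pair if it preserves the `i`-th equivalence and
the inequivalence for this pair. All conditions are only about pairs with types in `R`.
-/

set_option autoImplicit false
set_option linter.unusedVariables false

namespace Pool.Agent.H49.CL

open Pool.Agent.H68.BP Pool.Agent.H58.SF Pool.Agent.H53.NR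
open Pool.Agent.H57.AR (tp ty Ty)
open Pool.Agent.H57.EQ (Cx)
open Pool.Agent.H44.KR (HB Tyi TpOn)
open Pool.Agent.H44.FB (CptC EmbC)
open Pool.Agent.H72.CH
open Function

section counting

variable {V X : Type}

/-- the number of the classes of the values of `ψ` on `S`, for the `i`-th equivalence -/
noncomputable def ncl (lv : V → V → ℕ) (i : ℕ) (ψ : X → V) (S : Set X) : ℕ :=
  ((fun a => {b | b ∈ S ∧ i ≤ lv (ψ a) (ψ b)}) '' S).ncard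

/-- the class with the number `h` of `p` -/
def Cl (lv : V → V → ℕ) (h : ℕ) (p : V) : Set V := {x | h ≤ lv x p}

/-- the elements outside this class -/
def Out (lv : V → V → ℕ) (h : ℕ) (p : V) : Set V := {x | lv x p < h}

/-- the elements outside the classes of the elements of `Q` -/
def Off (lv : V → V → ℕ) (h : ℕ) (Q : Finset V) : Set V := {x | ∀ q ∈ Q, lv x q < h}

end counting

section exactness

variable {V : Type} {ρ σ : Sig}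

/-- `g` is exact on the pairs of elements of `U` with types in `R`. -/
def ExU (𝔹 : Str ρ V) (lv : V → V → ℕ) (i : ℕ) (R : Set (Ty ρ (Fin 2))) (g : V → V)
    (U : Set V) : Prop :=
  ∀ x ∈ U, ∀ y ∈ U, tp 𝔹 ![x, y] ∈ R → (i ≤ lv (g x) (g y) ↔ i ≤ lv x y)

/-- `R` is a minimal set of types of pairs such that all finite sets have images with types in
`R`. -/
structure RE (𝔸 : Str σ V) (𝔹 : Str ρ V) (lv : V → V → ℕ) (R : Set (Ty ρ (Fin 2))) : Prop where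
  sym : ∀ x y, tp 𝔹 ![x, y] ∈ R → tp 𝔹 ![y, x] ∈ R
  e : ∃ e : V → V, IsHom 𝔸 𝔸 e ∧ (∀ x y, lv (e x) (e y) = lv x y) ∧
    ∀ x y, tp 𝔹 ![e x, e y] ∈ R
  f : ∀ τ ∈ R, ∃ (n : ℕ) (F : Fin n → V), ∀ ψ : Fin n → V, Cx 𝔸 (fun _ : Unit => F) ψ →
    (∀ a b, tp 𝔹 ![ψ a, ψ b] ∈ R) → ∃ a b, tp 𝔹 ![ψ a, ψ b] = τ

/-- images with the least number of classes -/
def CmnC (𝔸 : Str σ V) (𝔹 : Str ρ V) (lv : V → V → ℕ) (i : ℕ) (R : Set (Ty ρ (Fin 2))) : Prop :=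
  ∀ (n : ℕ) (G : Fin n → V), ∃ z : Fin n → V, Cx 𝔸 (fun _ : Unit => G) z ∧
    (∀ a b, tp 𝔹 ![z a, z b] ∈ R) ∧
    ∀ (g : V → V) (z' : Fin n → V), IsHom 𝔸 𝔸 g → tp 𝔹 z' = tp 𝔹 z →
      ncl lv i z Set.univ ≤ ncl lv i (fun a => g (z' a)) Set.univ

/-- images with the largest number of classes: a map which is exact outside a class with the number
`j` does not increase the number of the classes in this class -/
def CmxC (𝔸 : Str σ V) (𝔹 : Str ρ V) (lv : V → V → ℕ) (i : ℕ) (R : Set (Ty ρ (Fin 2)))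
    (j : ℕ) : Prop :=
  ∀ (n : ℕ) (G : Fin n → V), ∃ (k : ℕ) (z : Fin k → V) (ι : Fin n → Fin k),
    Cx 𝔸 (fun _ : Unit => G) (fun a => z (ι a)) ∧ (∀ s t, tp 𝔹 ![z s, z t] ∈ R) ∧
    ∀ (u : Fin n) (g : V → V) (z' : Fin k → V), IsHom 𝔸 𝔸 g → tp 𝔹 z' = tp 𝔹 z →
      ExU 𝔹 lv i R g {x | ∃ s, x = z' s ∧ lv (z s) (z (ι u)) < j} →
      ncl lv i (fun a => g (z' (ι a))) {a | j ≤ lv (z (ι a)) (z (ι u))} ≤
        ncl lv i (fun a => z (ι a)) {a | j ≤ lv (z (ι a)) (z (ι u))}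

/-- no merging across the boundary of a class with the number `j` -/
def CrsC (𝔸 : Str σ V) (𝔹 : Str ρ V) (lv : V → V → ℕ) (i : ℕ) (R : Set (Ty ρ (Fin 2)))
    (j : ℕ) : Prop :=
  ∀ (h : ℕ) (p₀ : V) (Y Q : Finset V) (g : V → V), j ≤ h → 1 ≤ h → IsHom 𝔸 𝔸 g →
    ExU 𝔹 lv i R g (Cl lv j p₀ ∩ Off lv h Y) → ExU 𝔹 lv i R g (Out lv j p₀ ∩ Off lv j Q) →
    ExU 𝔹 lv i R g ((Cl lv j p₀ ∩ Off lv h Y) ∪ (Out lv j p₀ ∩ Off lv j Q))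

/-- from outside a class with the number `h` to its inside -/
def InC (𝔸 : Str σ V) (𝔹 : Str ρ V) (lv : V → V → ℕ) (i : ℕ) (R : Set (Ty ρ (Fin 2)))
    (h : ℕ) : Prop :=
  ∀ (p₀ : V) (Q : Finset V) (g : V → V), IsHom 𝔸 𝔸 g →
    ExU 𝔹 lv i R g (Out lv h p₀ ∩ Off lv h Q) → ExU 𝔹 lv i R g (Cl lv h p₀)

/-- A map which is exact outside finitely many classes with the number `h` is exact. -/
def SC (𝔸 : Str σ V) (𝔹 : Str ρ V) (lv : V → V → ℕ) (i : ℕ) (R : Set (Ty ρ (Fin 2)))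
    (h : ℕ) : Prop :=
  ∀ (Q : Finset V) (g : V → V), IsHom 𝔸 𝔸 g → ExU 𝔹 lv i R g (Off lv h Q) →
    ExU 𝔹 lv i R g Set.univ

/-- The finite form: for the tuple `y` in the class with the number `h` there are a tuple `z` and a
set `L` of its elements in this class which are not equivalent to elements of `y`, such that exact
maps on `L` and outside the class are exact on `y`. -/
def PrpC (𝔸 : Str σ V) (𝔹 : Str ρ V) (lv : V → V → ℕ) (i : ℕ) (R : Set (Ty ρ (Fin 2)))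
    (h : ℕ) : Prop :=
  ∀ (k : ℕ) (y : Fin (k + 1) → V), (∀ a b, h ≤ lv (y a) (y b)) →
    ∃ (Z : Type) (_ : Finite Z) (z : Z → V) (ι : Fin (k + 1) → Z) (L : Set Z),
      (∀ a, z (ι a) = y a) ∧ L.Nonempty ∧
      (∀ t ∈ L, h ≤ lv (z t) (y 0) ∧ ∀ a, lv (z t) (y a) ≤ h) ∧
      ∀ (g : V → V) (z' : Z → V), IsHom 𝔸 𝔸 g → tp 𝔹 z' = tp 𝔹 z →
        ExU 𝔹 lv i R g {x | ∃ t, x = z' t ∧ lv (z t) (y 0) < h} →
        ExU 𝔹 lv i R g {x | ∃ t ∈ L, x = z' t} → ExU 𝔹 lv i R g {x | ∃ a, x = z' (ι a)}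

/-- far copies in the class of `p₀` on which `g` is exact -/
def KapC (𝔸 : Str σ V) (𝔹 : Str ρ V) (lv : V → V → ℕ) (i : ℕ) (R : Set (Ty ρ (Fin 2)))
    (h : ℕ) : Prop :=
  ∀ (p₀ : V) (Q : Finset V) (g : V → V), IsHom 𝔸 𝔸 g →
    ExU 𝔹 lv i R g (Out lv h p₀ ∩ Off lv h Q) →
    ∀ (n : ℕ) (z : Fin n → V) (F : Finset V), (∀ a b, h ≤ lv (z a) (z b)) →
      ∃ z' : Fin n → V, tp 𝔹 z' = tp 𝔹 z ∧ (∀ a, h ≤ lv (z' a) p₀) ∧
        (∀ a, ∀ v ∈ F, lv (z' a) v ≤ h) ∧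
        ∀ a b, (i ≤ lv (g (z' a)) (g (z' b)) ↔ i ≤ lv (z a) (z b))

/-- the layers `ht x = 0, .., N`, with the live elements `L` -/
structure Lyr (𝔸 : Str σ V) (𝔹 : Str ρ V) (lv : V → V → ℕ) (i : ℕ) (R : Set (Ty ρ (Fin 2)))
    (h N : ℕ) (p q : V) (Q : Finset V) {X : Type} (ht : X → ℕ) (f : X → V) (L : Set X)
    (xp xq : X) : Prop where
  hp : ht xp = 0 ∧ f xp = p ∧ xp ∈ L
  hq : ht xq = 0 ∧ f xq = q ∧ xq ∈ L
  hQ : ∀ v ∈ Q, ∃ x, ht x = 0 ∧ f x = v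
  h0 : ∀ x, ht x = 0 → f x = p ∨ f x = q ∨ f x ∈ Q
  hN : ∀ x, ht x ≤ N
  lp : ∀ x ∈ L, h ≤ lv (f x) p
  top : ∃ x ∈ L, ht x = N
  far : ∀ x y j, ht x + 2 ≤ ht y → 1 ≤ j → j ≤ lv (f x) (f y) →
    j ≤ h ∧ j ≤ lv (f x) p ∧ j ≤ lv (f y) p
  live : ∀ x ∈ L, ∀ x', ht x' < ht x → lv (f x) (f x') ≤ h
  off : ∀ x, 1 ≤ ht x → ∀ v ∈ Q, lv (f x) v < h
  prp : ∀ k < N, ∀ (g : V → V) (f' : X → V), IsHom 𝔸 𝔸 g →
    TpOn 𝔹 {x | ht x = k ∨ ht x = k + 1} f f' →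
    ExU 𝔹 lv i R g {y | ∃ x, y = f' x ∧ ht x = k + 1 ∧ lv (f x) p < h} →
    ExU 𝔹 lv i R g {y | ∃ x ∈ L, y = f' x ∧ ht x = k + 1} →
    ExU 𝔹 lv i R g {y | ∃ x ∈ L, y = f' x ∧ ht x = k}

/-- layers exist -/
def LyrC (𝔸 : Str σ V) (𝔹 : Str ρ V) (lv : V → V → ℕ) (i : ℕ) (R : Set (Ty ρ (Fin 2)))
    (h N : ℕ) : Prop :=
  ∀ (p q : V) (Q : Finset V), h ≤ lv p q → (∀ v ∈ Q, lv v p < h) →
    ∃ (X : Type) (_ : Finite X) (ht : X → ℕ) (f : X → V) (L : Set X) (xp xq : X),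
      Lyr 𝔸 𝔹 lv i R h N p q Q ht f L xp xq

end exactness

section placing

variable {V N : Type} {ρ δ : Sig} {m : ℕ}

/-- disjoint copies of the complement of `A`, equivalent only through `A` -/
def MulC (𝔹 : Str ρ V) (lv : V → V → ℕ) : Prop :=
  ∀ (W : Type) [Finite W] (A : Set W) (y : W → V) (n : ℕ), ∃ Y : Fin n → W → V,
    (∀ a, tp 𝔹 (Y a) = tp 𝔹 y) ∧ (∀ a, ∀ c ∈ A, Y a c = y c) ∧
    ∀ a b, a ≠ b → ∀ w w' j, 1 ≤ j → j ≤ lv (Y a w) (Y b w') →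
      ∃ c ∈ A, j ≤ lv (y w) (y c) ∧ j ≤ lv (y c) (y w')

/-- If there are more than `M + 1` layers, the ends can be moved independently. -/
def LayC (𝔹 : Str ρ V) (lv : V → V → ℕ) (M : ℕ) : Prop :=
  ∀ (X : Type) [Finite X] (ht : X → ℕ) (N : ℕ) (f f₀ : X → V) (Λ : Set X), M + 2 ≤ N →
    (∀ x, ht x ≤ N) → (∀ x ∈ Λ, ht x = N) → TpOn 𝔹 {x | ht x = 0} f f₀ → TpOn 𝔹 Λ f f₀ →
    (∀ x y, ht x = 0 → y ∈ Λ → lv (f₀ x) (f₀ y) = lv (f x) (f y)) →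
    (∀ x y j, ht x + 2 ≤ ht y → 1 ≤ j → j ≤ lv (f x) (f y) →
      (∃ r, ht r = 0 ∧ j ≤ lv (f x) (f r)) ∧ ∃ l ∈ Λ, j ≤ lv (f y) (f l)) →
    ∃ f' : X → V, (∀ x y, lv (f' x) (f' y) = lv (f x) (f y)) ∧
      (∀ x, ht x = 0 ∨ x ∈ Λ → f' x = f₀ x) ∧
      ∀ k, TpOn 𝔹 {x | ht x = k ∨ ht x = k + 1} f f'

/-- canonical copies over the first `h` names of the flag `π` -/
def CnrC (𝔻 : Str δ N) (st : N → Fin m) : Prop :=
  ∀ (V : Type) (lv : V → V → ℕ), PLev m lv → ∀ (ψ : (Fin m → N) → V) (π : Fl st) (h : ℕ)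
    (J : Finset N), ∃ φ : N → N, TpOn 𝔻 (J : Set N) id φ ∧
      (∀ i : Fin m, (i : ℕ) < h → π.1 i ∈ J → φ (π.1 i) = π.1 i) ∧
      ∀ (l : ℕ) (a b c d : Fl st), (∀ i, a.1 i ∈ J ∧ b.1 i ∈ J ∧ c.1 i ∈ J ∧ d.1 i ∈ J) →
        Agr h π.1 a.1 → Agr h π.1 b.1 → Agr h π.1 c.1 → Agr h π.1 d.1 → h ≤ m → l ≤ m →
        (∀ i : Fin m, a.1 i = b.1 i ↔ (i : ℕ) < l) → Agr l c.1 d.1 →
        lv (ψ (fun i => φ (a.1 i))) (ψ (fun i => φ (b.1 i))) ≤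
          lv (ψ (fun i => φ (c.1 i))) (ψ (fun i => φ (d.1 i)))

/-- thresholds: `g` has a threshold `κ` on copies of all finite tuples in the class of `p₀` -/
def RlrC (𝔹 : Str ρ V) (m : ℕ) (lv : V → V → ℕ) : Prop :=
  ∀ (i h : ℕ) (g : V → V) (p₀ : V), h ≤ m → ∃ κ : ℕ, ∀ (n : ℕ) (z : Fin n → V) (u : Fin n),
    ∃ z' : Fin n → V, tp 𝔹 z' = tp 𝔹 z ∧ h ≤ lv (z' u) p₀ ∧
      ∀ a b, h ≤ lv (z a) (z u) → h ≤ lv (z b) (z u) →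
        (i ≤ lv (g (z' a)) (g (z' b)) ↔ κ ≤ lv (z a) (z b))

/-- the same with copies in general position -/
def GenC (𝔹 : Str ρ V) (m : ℕ) (lv : V → V → ℕ) : Prop :=
  ∀ (i h : ℕ) (g : V → V) (p₀ : V), h < m → ∃ κ : ℕ, ∀ (n : ℕ) (z : Fin n → V) (u : Fin n)
    (F : Finset V), ∃ z' : Fin n → V, tp 𝔹 z' = tp 𝔹 z ∧ h ≤ lv (z' u) p₀ ∧
      (∀ a, ∀ v ∈ F, ∀ j, 1 ≤ j → j ≤ lv (z' a) v → j ≤ h ∧ j ≤ lv (z' a) p₀) ∧
      ∀ a b, h ≤ lv (z a) (z u) → h ≤ lv (z b) (z u) →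
        (i ≤ lv (g (z' a)) (g (z' b)) ↔ κ ≤ lv (z a) (z b))

end placing

end Pool.Agent.H49.CL
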