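import Pool.Agent.H49.CL.Defs

/-!
# Chains of equivalence relations: endomorphisms preserve the chain, targets
-/

set_option autoImplicit false
set_option linter.unusedVariables false

namespace Pool.Agent.H49.CL

open Pool.Agent.H68.BP Pool.Agent.H58.SF Pool.Agent.H53.NR
open Pool.Agent.H57.AR (tp ty Ty)
open Pool.Agent.H57.EQ (Cx)
open Pool.Agent.H57.LH (RmV)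
open Pool.Agent.H44.KR (HB Tyi TpOn)
open Pool.Agent.H44.FB (CptC EmbC)
open Pool.Agent.H72.CH
open Function

/-! ### Counting -/

/-- more identifications, fewer classes -/
def T_NCA : Prop := ∀ (V X : Type) [Finite X] (m : ℕ) (lv : V → V → ℕ) (i : ℕ) (φ ψ : X → V)
  (S : Set X), PLev m lv → i ≤ m →
    (∀ a ∈ S, ∀ b ∈ S, i ≤ lv (φ a) (φ b) → i ≤ lv (ψ a) (ψ b)) →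
    ncl lv i ψ S ≤ ncl lv i φ S ∧
      ((∃ a ∈ S, ∃ b ∈ S, i ≤ lv (ψ a) (ψ b) ∧ ¬ i ≤ lv (φ a) (φ b)) →
        ncl lv i ψ S < ncl lv i φ S)

/-- unions -/
def T_NCU : Prop := ∀ (V X : Type) [Finite X] (m : ℕ) (lv : V → V → ℕ) (i : ℕ) (ψ : X → V)
  (S T : Set X), PLev m lv → i ≤ m → ncl lv i ψ (S ∪ T) ≤ ncl lv i ψ S + ncl lv i ψ T ∧
    ((∀ a ∈ S, ∀ b ∈ T, ¬ i ≤ lv (ψ a) (ψ b)) →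
      ncl lv i ψ (S ∪ T) = ncl lv i ψ S + ncl lv i ψ T)

/-! ### Types of pairs and extremal images -/

/-- the set `R` -/
def T_REX : Prop := ∀ (V : Type) (ρ σ : Sig) (𝔹 : Str ρ V) (m : ℕ) (lv : V → V → ℕ)
  (𝔸 : Str σ V), HV 𝔹 m lv → Tyi 𝔸 𝔹 → CptC 𝔹 → RamX 𝔸 𝔹 lv → ∃ R, RE 𝔸 𝔹 lv R

def T_CMN : Prop := ∀ (V : Type) (ρ σ : Sig) (𝔹 : Str ρ V) (m : ℕ) (lv : V → V → ℕ)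
  (𝔸 : Str σ V) (i : ℕ) (R : Set (Ty ρ (Fin 2))), HV 𝔹 m lv → Tyi 𝔸 𝔹 → RE 𝔸 𝔹 lv R →
    CmnC 𝔸 𝔹 lv i R

def T_MUL : Prop := ∀ (V : Type) (ρ : Sig) (𝔹 : Str ρ V) (m : ℕ) (lv : V → V → ℕ),
  HV 𝔹 m lv → AmlC 𝔹 lv → MulC 𝔹 lv

def T_CMX : Prop := T_NCA → T_NCU → ∀ (V : Type) (ρ σ : Sig) (𝔹 : Str ρ V) (m : ℕ)
  (lv : V → V → ℕ) (𝔸 : Str σ V) (i j : ℕ) (R : Set (Ty ρ (Fin 2))), HV 𝔹 m lv → Tyi 𝔸 𝔹 →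
    MulC 𝔹 lv → RE 𝔸 𝔹 lv R → 1 ≤ i → i ≤ m → j ≤ i → CmxC 𝔸 𝔹 lv i R j

def T_CRS : Prop := T_NCA → ∀ (V : Type) (ρ σ : Sig) (𝔹 : Str ρ V) (m : ℕ)
  (lv : V → V → ℕ) (𝔸 : Str σ V) (i j : ℕ) (R : Set (Ty ρ (Fin 2))), HV 𝔹 m lv → Tyi 𝔸 𝔹 →
    AmlC 𝔹 lv → RE 𝔸 𝔹 lv R → CmnC 𝔸 𝔹 lv i R → i ≤ m → j ≤ i → CrsC 𝔸 𝔹 lv i R j

/-- classes of the `i`-th equivalence -/
def T_INI : Prop := T_NCA → ∀ (V : Type) (ρ σ : Sig) (𝔹 : Str ρ V) (m : ℕ)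
  (lv : V → V → ℕ) (𝔸 : Str σ V) (i : ℕ) (R : Set (Ty ρ (Fin 2))), HV 𝔹 m lv → Tyi 𝔸 𝔹 →
    AmlC 𝔹 lv → RE 𝔸 𝔹 lv R → CmxC 𝔸 𝔹 lv i R i → 1 ≤ i → i ≤ m → InC 𝔸 𝔹 lv i R i

/-! ### The Ramsey property inside a class -/

def T_CNR : Prop := ∀ (N : Type) (δ : Sig) (𝔻 : Str δ N) (m : ℕ) (st : N → Fin m),
  Nonempty N → RmV 𝔻 → EmbC 𝔻 → ZzC 𝔻 st → CnrC 𝔻 st

def T_RLR : Prop := ∀ (V N : Type) (ρ δ : Sig) (𝔹 : Str ρ V) (m : ℕ) (lv : V → V → ℕ)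
  (𝔻 : Str δ N) (st : N → Fin m) (β : (Fin m → N) → V), HV 𝔹 m lv → Nm 𝔹 m lv 𝔻 st β →
    EmbC 𝔹 → EmbC 𝔻 → NexC 𝔹 m lv st β → CnrC 𝔻 st → RlrC 𝔹 m lv

def T_GEN : Prop := ∀ (V : Type) (ρ : Sig) (𝔹 : Str ρ V) (m : ℕ) (lv : V → V → ℕ),
  HV 𝔹 m lv → AmlC 𝔹 lv → MulC 𝔹 lv → LveC m lv → RlrC 𝔹 m lv → GenC 𝔹 m lv

def T_KAP : Prop := T_NCA → ∀ (V : Type) (ρ σ : Sig) (𝔹 : Str ρ V) (m : ℕ)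
  (lv : V → V → ℕ) (𝔸 : Str σ V) (i h : ℕ) (R : Set (Ty ρ (Fin 2))), HV 𝔹 m lv → Tyi 𝔸 𝔹 →
    NcL 𝔸 m lv → GenC 𝔹 m lv → RE 𝔸 𝔹 lv R → CmnC 𝔸 𝔹 lv i R → CmxC 𝔸 𝔹 lv i R h →
    h < i → i < m → KapC 𝔸 𝔹 lv i R h

/-! ### Layers -/

def T_PRP : Prop := ∀ (V : Type) (ρ σ : Sig) (𝔹 : Str ρ V) (m : ℕ)
  (lv : V → V → ℕ) (𝔸 : Str σ V) (i h : ℕ) (R : Set (Ty ρ (Fin 2))), HV 𝔹 m lv → Tyi 𝔸 𝔹 →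
    CptC 𝔹 → AmlC 𝔹 lv → LveC m lv → CrsC 𝔸 𝔹 lv i R h → SC 𝔸 𝔹 lv i R (h + 1) →
    h < i → i < m → PrpC 𝔸 𝔹 lv i R h

def T_LYR : Prop := ∀ (V : Type) (ρ σ : Sig) (𝔹 : Str ρ V) (m : ℕ)
  (lv : V → V → ℕ) (𝔸 : Str σ V) (i h : ℕ) (R : Set (Ty ρ (Fin 2))), HV 𝔹 m lv →
    AmlC 𝔹 lv → PrpC 𝔸 𝔹 lv i R h → h < m → ∀ N, LyrC 𝔸 𝔹 lv i R h N

def T_LAY : Prop := ∀ (V : Type) (ρ : Sig) (𝔹 : Str ρ V) (m : ℕ) (lv : V → V → ℕ),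
  HV 𝔹 m lv → EmbC 𝔹 → ∀ M, RlcN 𝔹 m lv M → LayC 𝔹 lv M

def T_INH : Prop := ∀ (V : Type) (ρ σ : Sig) (𝔹 : Str ρ V) (m : ℕ)
  (lv : V → V → ℕ) (𝔸 : Str σ V) (i h M : ℕ) (R : Set (Ty ρ (Fin 2))), HV 𝔹 m lv →
    LayC 𝔹 lv M → LyrC 𝔸 𝔹 lv i R h (M + 2) → KapC 𝔸 𝔹 lv i R h → h < m →
    InC 𝔸 𝔹 lv i R h

/-! ### Conclusion -/

def T_ISC : Prop := ∀ (V : Type) (ρ σ : Sig) (𝔹 : Str ρ V) (m : ℕ)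
  (lv : V → V → ℕ) (𝔸 : Str σ V) (i h : ℕ) (R : Set (Ty ρ (Fin 2))),
    InC 𝔸 𝔹 lv i R h → CrsC 𝔸 𝔹 lv i R h → SC 𝔸 𝔹 lv i R h

def T_UEX : Prop := ∀ (V : Type) (ρ σ : Sig) (𝔹 : Str ρ V) (m : ℕ)
  (lv : V → V → ℕ) (𝔸 : Str σ V) (R : Set (Ty ρ (Fin 2))), HV 𝔹 m lv → LveC m lv →
    (∃ L, PthC 𝔹 lv L) → RE 𝔸 𝔹 lv R →
    (∀ i, 1 ≤ i → i < m → ∀ g, IsHom 𝔸 𝔸 g → ExU 𝔹 lv i R g Set.univ) → UEC 𝔸 lv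

end Pool.Agent.H49.CL
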